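import Pool.Agent.H560.AR.Final

/-!
# Both values of the Möbius function in all classes of squarefree moduli, exponent `3 / 2`, over
`F_q[X]`, `q` even
-/

namespace Pool.Agent.Results.MP_e1dc24_nt.BothSignsExponentThreeHalves

open Polynomial

open Classical in
/-- The Möbius function of `K[X]`. -/
noncomputable def mu {K : Type} [Field K] (f : K[X]) : ℤ :=
  if Squarefree f then (-1) ^ Multiset.card (UniqueFactorizationMonoid.factors f) else 0

/-- The monic `f` of degree `n` with `f ≡ a mod M`. -/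
def Cls {K : Type} [Field K] (n : ℕ) (M a : K[X]) : Set K[X] :=
  {f | f.Monic ∧ f.natDegree = n ∧ M ∣ f - a}

/-- Let `K` be a finite field with an even number `q` of elements and `λ > 3/2`. There is `c > 0`
such that for all large `n`, all squarefree monic `M` with `λ deg M ≤ n` and all `a` coprime to `M`,
among the monic `f` of degree `n` with `f ≡ a mod M` each of the values `1` and `-1` of the Möbius
function is taken at least `c q ^ (n - deg M)` times, and the absolute value of the sum of the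
Möbius function is at most the number of the squarefree `f` minus `c q ^ (n - deg M)`. -/
theorem result (K : Type) [Field K] [Fintype K] [CharP K 2] (lam : ℝ) (hlam : 3 / 2 < lam) :
    ∃ c : ℝ, 0 < c ∧ ∃ n₀ : ℕ, ∀ n : ℕ, n₀ ≤ n → ∀ M a : K[X], M.Monic → Squarefree M →
      lam * M.natDegree ≤ n → IsCoprime a M →
        c * (Fintype.card K : ℝ) ^ (n - M.natDegree) ≤ {f ∈ Cls n M a | mu f = 1}.ncard ∧
        c * (Fintype.card K : ℝ) ^ (n - M.natDegree) ≤ {f ∈ Cls n M a | mu f = -1}.ncard ∧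
        |∑ᶠ f ∈ Cls n M a, (mu f : ℝ)| ≤ {f ∈ Cls n M a | Squarefree f}.ncard -
          c * (Fintype.card K : ℝ) ^ (n - M.natDegree) := by
  have h0 : lam⁻¹ < 2 / 3 := by
    rw [inv_lt_comm₀ (by linarith) (by norm_num)]
    norm_num
    exact hlam
  obtain ⟨c, hc, n₀, hn₀⟩ := Pool.Agent.H560.AR.signs_top K lam⁻¹ h0
  refine ⟨c, hc, n₀, fun n hn M a hM hMs hMθ ha => ?_⟩
  have h3 : (M.natDegree : ℝ) ≤ lam⁻¹ * n := by
    rw [inv_mul_eq_div, le_div_iff₀ (by linarith), mul_comm]
    exact hMθ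
  obtain ⟨h1, h2, h4⟩ := hn₀ n hn M a hM hMs h3 ha
  have key : ∀ p : K[X] → Prop, {f ∈ Cls n M a | p f} =
      {f : K[X] | f.Monic ∧ f.natDegree = n ∧ M ∣ f - a ∧ p f} := by
    intro p
    ext f
    constructor
    · rintro ⟨⟨a1, a2, a3⟩, a4⟩
      exact ⟨a1, a2, a3, a4⟩
    · rintro ⟨a1, a2, a3, a4⟩
      exact ⟨⟨a1, a2, a3⟩, a4⟩
  rw [key (fun f => mu f = 1), key (fun f => mu f = -1), key Squarefree]
  exact ⟨h1, h2, h4⟩

end Pool.Agent.Results.MP_e1dc24_nt.BothSignsExponentThreeHalves
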