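import Pool.Agent.H533.QA.Ar1

/-!
# Primes in the residue classes modulo `d` at the places of an arbitrary set of multipliers

The question asks whether every class `a` modulo `d`, prime to `d`, contains a prime `a + j d` with
`j ≤ (log d) ^ A`.  Here the `(log d) ^ A` multipliers are replaced by an ARBITRARY set `J` of at least
`ρ (φ(d)/d) log d` of them (`ρ > 0` arbitrarily small; the average number of primes `a + j d` with
`j ∈ J` is then only about `ρ`).  For every modulus `d` such a set catches at least `m` primes in at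
least `c κ(d) φ(d)` classes, where `κ(d)` is the product of `1 - 1/p` over the primes `p ≤ log log d`
which do not divide `d`, and in these classes the numbers `a + j d` with `j ≤ Λ (φ(d)/d) log d` outside of
`J` are all composite.  The constant `c` does not depend on the exponent `A`.  The order of magnitude
`κ(d) φ(d)` is the correct one for every modulus: already for `A = 2` and for one prime there are sets
`J` with more than `(log d) ^ (3/2)` elements which catch a prime in at most `16 κ(d) φ(d)` classes.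
-/

set_option autoImplicit false

open Finset Filter Topology

namespace Pool.Agent.Results.MP_e1dc24_nt.EverySetOfMultipliers

open Pool.Agent.H361R2.PP
open Pool.Agent.H533.QM
open Pool.Agent.H533.QA

/-- `κ(d)`: the product of `1 - 1/p` over the primes `p ≤ log log d` which do not divide `d` -/
noncomputable def kappa (d : ℕ) : ℝ :=
  ∏ p ∈ (range (⌊Real.log (Real.log d)⌋₊ + 1)).filter (fun p => p.Prime ∧ ¬ p ∣ d),
    (1 - 1 / (p : ℝ))

/-- the average number of multipliers between two primes of a class: `(φ(d)/d) log d` -/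
noncomputable def scale (d : ℕ) : ℝ := (Nat.totient d : ℝ) / d * Real.log d

/-- `a` is prime to `d`, at least `m` of the numbers `a + j d`, `j ∈ J`, are prime, and `a + j d` is not
prime for all the other `j ≤ Λ (φ(d)/d) log d` -/
def Good (m : ℕ) (Λ : ℝ) (J : Finset ℕ) (d a : ℕ) : Prop :=
  a.Coprime d ∧ m ≤ (J.filter (fun j => (a + j * d).Prime)).card ∧
    ∀ j : ℕ, (j : ℝ) ≤ Λ * scale d → (a + j * d).Prime → j ∈ J

open Classical in
theorem lower (m : ℕ) (ρ Λ : ℝ) (hρ : 0 < ρ) (hΛ : 0 < Λ) :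
    ∃ c : ℝ, 0 < c ∧ ∀ A : ℕ, ∃ d₀ : ℕ, ∀ d : ℕ, d₀ ≤ d → ∀ J : Finset ℕ,
      (∀ j ∈ J, (j : ℝ) ≤ Real.log d ^ A) → ρ * scale d ≤ J.card →
      c * (kappa d * (Nat.totient d : ℝ)) ≤
        (((range d).filter (fun a => Good m Λ J d a)).card : ℝ) := by
  obtain ⟨c, hc, H⟩ := arb m (ρ / 2) Λ (by positivity) hΛ
  refine ⟨c / 2, by positivity, fun A => ?_⟩
  obtain ⟨X1, h1⟩ := H A
  obtain ⟨X2, h2⟩ := pi_kap (c / 2) (by positivity)
  obtain ⟨X3, h3⟩ := L_big (4 / ρ)
  refine ⟨X1 + X2 + X3 + 2, fun d hd J hJ hJc => ?_⟩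
  have hd0 : (0 : ℝ) < d := by exact_mod_cast (by omega : 0 < d)
  obtain ⟨hll, hp⟩ := h2 d (by omega)
  have hk : kappa d = kap d := rfl
  have hs : scale d = Ls d d := rfl
  have hbig : 4 / ρ ≤ Ls d d := by
    refine le_trans ?_ (h3 d (by omega) d (by omega) le_rfl)
    have hW : (1 : ℝ) ≤ Wq d d := by exact_mod_cast Wq_pos d d
    have : 0 < 4 / ρ := by positivity
    exact le_mul_of_one_le_right this.le (one_le_pow₀ hW)
  have hL2 : 2 ≤ ρ / 2 * Ls d d := by
    rw [div_le_iff₀ hρ] at hbig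
    linarith
  rw [hs] at hJc
  -- the shifted set
  obtain ⟨J₁, hJ₁⟩ : ∃ J₁, J₁ = (J.filter (fun j => 2 ≤ j)).image (fun j => j - 1) := ⟨_, rfl⟩
  have hJ1 : ∀ j ∈ J₁, 1 ≤ j ∧ (j : ℝ) ≤ Real.log d ^ A := by
    intro j hj
    rw [hJ₁, mem_image] at hj
    obtain ⟨i, hi, rfl⟩ := hj
    rw [mem_filter] at hi
    refine ⟨by omega, ?_⟩
    refine le_trans ?_ (hJ i hi.1)
    exact_mod_cast Nat.sub_le _ _
  have hcard : (J.card : ℝ) ≤ J₁.card + 2 := by
    have g1 : J₁.card = (J.filter (fun j => 2 ≤ j)).card := by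
      rw [hJ₁, card_image_of_injOn]
      intro i hi j hj h
      rw [mem_coe, mem_filter] at hi hj
      have : i - 1 = j - 1 := h
      omega
    have g2 := card_filter_add_card_filter_not (s := J) (fun j => 2 ≤ j)
    have g3 : (J.filter (fun j => ¬ 2 ≤ j)).card ≤ 2 := by
      have : J.filter (fun j => ¬ 2 ≤ j) ⊆ range 2 := by
        intro j hj
        rw [mem_filter] at hj
        rw [mem_range]
        omega
      simpa using card_le_card this
    have g4 : J.card ≤ J₁.card + 2 := by omega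
    exact_mod_cast g4
  have hres := h1 d (by omega) d (by omega) le_rfl J₁ hJ1 (by linarith)
  have h6 : fr d * d = (Nat.totient d : ℝ) := by
    unfold fr
    field_simp
  rw [h6] at hres
  have hmain : c * (kap d * (Nat.totient d : ℝ)) ≤ (((Ico d (2 * d)).filter (fun n =>
      n.Coprime d ∧ m ≤ (J₁.filter (fun j => (n + j * d).Prime)).card ∧
        ∀ j ∈ Icc 1 ⌊Λ * Ls d d⌋₊, (n + j * d).Prime → j ∈ J₁)).card : ℝ) := by
    refine le_trans ?_ hres
    have := kap_le (d := d) (by linarith)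
    rw [← mul_assoc]
    apply mul_le_mul_of_nonneg_right _ (Nat.cast_nonneg _)
    exact mul_le_mul_of_nonneg_left this hc.le
  rw [hk]
  obtain ⟨G, hG⟩ : ∃ G, G = (range d).filter (fun a => Good m Λ J d a) := ⟨_, rfl⟩
  rw [← hG]
  have hcardG : ((Ico d (2 * d)).filter (fun n =>
      n.Coprime d ∧ m ≤ (J₁.filter (fun j => (n + j * d).Prime)).card ∧
        ∀ j ∈ Icc 1 ⌊Λ * Ls d d⌋₊, (n + j * d).Prime → j ∈ J₁)).card ≤
      G.card + ((range (2 * d)).filter Nat.Prime).card := by
    have hinj : ((Ico d (2 * d)).filter (fun n =>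
        n.Coprime d ∧ m ≤ (J₁.filter (fun j => (n + j * d).Prime)).card ∧
        ∀ j ∈ Icc 1 ⌊Λ * Ls d d⌋₊, (n + j * d).Prime → j ∈ J₁)).card =
        (((Ico d (2 * d)).filter (fun n =>
        n.Coprime d ∧ m ≤ (J₁.filter (fun j => (n + j * d).Prime)).card ∧
        ∀ j ∈ Icc 1 ⌊Λ * Ls d d⌋₊, (n + j * d).Prime → j ∈ J₁)).image (fun n => n - d)).card := by
      rw [card_image_of_injOn]
      intro n hn n' hn' h
      rw [mem_coe, mem_filter, mem_Ico] at hn hn'
      have : n - d = n' - d := h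
      omega
    rw [hinj]
    have hE : (((range d).filter (fun a => a.Prime ∨ (a + d).Prime)).card) ≤
        ((range (2 * d)).filter Nat.Prime).card := by
      apply card_le_card_of_injOn (fun a : ℕ => (if a.Prime then a else a + d : ℕ))
      · intro a ha
        rw [mem_coe, mem_filter, mem_range] at ha
        rw [mem_coe, mem_filter, mem_range]
        beta_reduce
        split_ifs with h
        · exact ⟨by omega, h⟩
        · exact ⟨by omega, ha.2.resolve_left h⟩
      · intro a ha a' ha' h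
        rw [mem_coe, mem_filter, mem_range] at ha ha'
        beta_reduce at h
        split_ifs at h <;> omega
    refine le_trans (card_le_card (t := G ∪ (range d).filter (fun a => a.Prime ∨ (a + d).Prime))
      ?_) ((card_union_le _ _).trans (by omega))
    intro a ha
    rw [mem_image] at ha
    obtain ⟨n, hn, rfl⟩ := ha
    rw [mem_filter, mem_Ico] at hn
    obtain ⟨⟨hn1, hn2⟩, hn3, hn4, hn5⟩ := hn
    obtain ⟨a, rfl⟩ : ∃ a, n = a + d := ⟨n - d, by omega⟩
    have hsub : a + d - d = a := by omega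
    rw [hsub, mem_union]
    by_cases hex : a.Prime ∨ (a + d).Prime
    · right
      rw [mem_filter, mem_range]
      exact ⟨by omega, hex⟩
    left
    push Not at hex
    rw [hG, mem_filter, mem_range]
    refine ⟨by omega, by rwa [Nat.coprime_add_self_left] at hn3, ?_, ?_⟩
    · refine hn4.trans ?_
      apply card_le_card_of_injOn (fun j : ℕ => j + 1)
      · intro j hj
        rw [mem_coe, mem_filter, hJ₁, mem_image] at hj
        obtain ⟨⟨i, hi, rfl⟩, hj2⟩ := hj
        rw [mem_filter] at hi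
        rw [mem_coe, mem_filter]
        have e1 : i - 1 + 1 = i := by omega
        beta_reduce
        rw [e1]
        refine ⟨hi.1, ?_⟩
        have e2 : a + i * d = a + d + (i - 1) * d := by
          obtain ⟨r, rfl⟩ : ∃ r, i = r + 1 := ⟨i - 1, by omega⟩
          rw [Nat.add_sub_cancel]
          ring
        rw [e2]
        exact hj2
      · intro i _ j _ h
        have : i + 1 = j + 1 := h
        omega
    · intro j hj hpj
      rw [hs] at hj
      have hj2 : 2 ≤ j := by
        by_contra hcon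
        have h10 : j = 0 ∨ j = 1 := by omega
        rcases h10 with h | h
        · rw [h, zero_mul, add_zero] at hpj
          exact hex.1 hpj
        · rw [h, one_mul] at hpj
          exact hex.2 hpj
      obtain ⟨i, rfl⟩ : ∃ i, j = i + 1 := ⟨j - 1, by omega⟩
      have g1 : i ∈ J₁ := by
        apply hn5 i
        · rw [mem_Icc]
          refine ⟨by omega, ?_⟩
          apply Nat.le_floor
          refine le_trans ?_ hj
          push_cast
          linarith
        · have e2 : a + d + i * d = a + (i + 1) * d := by ring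
          rw [e2]
          exact hpj
      rw [hJ₁, mem_image] at g1
      obtain ⟨r, hr, hr2⟩ := g1
      rw [mem_filter] at hr
      have : r = i + 1 := by omega
      rw [← this]
      exact hr.1
  have hcr : (((Ico d (2 * d)).filter (fun n =>
      n.Coprime d ∧ m ≤ (J₁.filter (fun j => (n + j * d).Prime)).card ∧
        ∀ j ∈ Icc 1 ⌊Λ * Ls d d⌋₊, (n + j * d).Prime → j ∈ J₁)).card : ℝ) ≤
      (G.card : ℝ) + (((range (2 * d)).filter Nat.Prime).card : ℝ) := by exact_mod_cast hcardG
  linarith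

open Classical in
theorem sharp : ∃ d₀ : ℕ, ∀ d : ℕ, d₀ ≤ d → ∃ J : Finset ℕ,
    (∀ j ∈ J, (j : ℝ) ≤ Real.log d ^ 2) ∧ Real.log d ^ (3 / 2 : ℝ) ≤ J.card ∧
    (((range d).filter (fun a => a.Coprime d ∧ ∃ j ∈ J, (a + j * d).Prime)).card : ℝ) ≤
      16 * (kappa d * (Nat.totient d : ℝ)) := by
  obtain ⟨X1, h1⟩ := card_Sc
  obtain ⟨X2, h2⟩ := HH_lt
  have t1 : Tendsto (fun X : ℕ => Real.log (X : ℝ)) atTop atTop :=
    Real.tendsto_log_atTop.comp tendsto_natCast_atTop_atTop
  have t2 : Tendsto (fun X : ℕ => Real.log (Real.log (X : ℝ))) atTop atTop :=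
    Real.tendsto_log_atTop.comp t1
  obtain ⟨X3, h3⟩ := eventually_atTop.1 ((t1.eventually_ge_atTop 2).and
    (t2.eventually_ge_atTop 4))
  have t4 : ∀ᶠ x : ℝ in atTop, (2 : ℝ) ≤ x ^ (3 / 20 : ℝ) :=
    (tendsto_rpow_atTop (by norm_num)).eventually_ge_atTop 2
  obtain ⟨X4, h4⟩ := eventually_atTop.1 (t1.eventually t4)
  refine ⟨X1 + X2 + X3 + X4 + 16, fun d hd => ?_⟩
  obtain ⟨hl, hll⟩ := h3 d (by omega)
  have hl4 := h4 d (by omega)
  have hHd := h2 d (by omega)
  have hd0 : (0 : ℝ) < d := by exact_mod_cast (by omega : 0 < d)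
  obtain ⟨W, hW⟩ : ∃ W, W = Wq d d := ⟨_, rfl⟩
  have hW0 : 0 < W := by rw [hW]; exact Wq_pos d d
  have hWr : (0 : ℝ) < W := by exact_mod_cast hW0
  obtain ⟨l, hld⟩ : ∃ l, l = Real.log d := ⟨_, rfl⟩
  have hWl : (W : ℝ) ≤ l ^ (7 / 20 : ℝ) := by
    rw [hW, hld]
    exact le_trans (by exact_mod_cast Wq_le d d) (Pool.Agent.H325R2.wtx.1 d (by omega))
  have hl0 : 0 < l := by rw [hld]; linarith
  have hH1 : 1 ≤ HH d := by
    unfold HH
    apply Nat.le_floor
    rw [Nat.cast_one]
    linarith
  refine ⟨(Icc 1 ⌊l ^ 2 / W⌋₊).image (fun i => i * W), ?_, ?_, ?_⟩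
  · intro j hj
    rw [mem_image] at hj
    obtain ⟨i, hi, rfl⟩ := hj
    rw [mem_Icc] at hi
    have g1 : (i : ℝ) ≤ l ^ 2 / W := (Nat.le_floor_iff (by positivity)).1 hi.2
    rw [le_div_iff₀ hWr] at g1
    rw [← hld]
    push_cast
    exact g1
  · rw [card_image_of_injective _ (fun _ _ h => Nat.eq_of_mul_eq_mul_right hW0 h), Nat.card_Icc,
      ← hld]
    have g1 : l ^ (3 / 2 : ℝ) + 1 ≤ l ^ 2 / W := by
      rw [le_div_iff₀ hWr]
      have g2 : l ^ 2 = l ^ (3 / 2 : ℝ) * (l ^ (7 / 20 : ℝ) * l ^ (3 / 20 : ℝ)) := by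
        rw [← Real.rpow_add hl0, ← Real.rpow_add hl0, ← Real.rpow_natCast]
        norm_num
      rw [g2]
      rw [← hld] at hl4
      have g3 : (1 : ℝ) ≤ l ^ (3 / 2 : ℝ) := by
        apply Real.one_le_rpow _ (by norm_num)
        rw [hld]; linarith
      have g4 : (0 : ℝ) ≤ l ^ (7 / 20 : ℝ) := by positivity
      calc (l ^ (3 / 2 : ℝ) + 1) * W ≤ (l ^ (3 / 2 : ℝ) + l ^ (3 / 2 : ℝ)) * l ^ (7 / 20 : ℝ) :=
            mul_le_mul (by linarith) hWl hWr.le (by linarith)
        _ = l ^ (3 / 2 : ℝ) * (l ^ (7 / 20 : ℝ) * 2) := by ring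
        _ ≤ _ := by
            apply mul_le_mul_of_nonneg_left _ (by linarith)
            exact mul_le_mul_of_nonneg_left hl4 g4
    have g5 := Nat.lt_floor_add_one (l ^ 2 / W)
    have g6 : ((⌊l ^ 2 / (W : ℝ)⌋₊ + 1 - 1 : ℕ) : ℝ) = (⌊l ^ 2 / (W : ℝ)⌋₊ : ℝ) := by
      rw [Nat.add_sub_cancel]
    rw [g6]
    linarith
  · -- the classes are prime to `W`
    obtain ⟨E, hE⟩ : ∃ E, E = (range d).filter (fun a => a.Coprime d ∧
      ∃ j ∈ (Icc 1 ⌊l ^ 2 / W⌋₊).image (fun i => i * W), (a + j * d).Prime) := ⟨_, rfl⟩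
    rw [← hE]
    obtain ⟨G, hG⟩ : ∃ G, G = (range W).filter (fun b => (b + (W * d - d)).Coprime W) := ⟨_, rfl⟩
    have hGc : G.card = Nat.totient W := by rw [hG]; exact card_cop W _
    have hsub : E.image (fun a => a + d) ⊆ G.biUnion (fun b => Sc d d b) := by
      intro n hn
      rw [mem_image] at hn
      obtain ⟨a, ha, rfl⟩ := hn
      rw [hE, mem_filter, mem_range] at ha
      obtain ⟨ha1, ha2, j, hj, hp⟩ := ha
      rw [mem_image] at hj
      obtain ⟨i, hi, rfl⟩ := hj
      rw [mem_Icc] at hi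
      have haW : a.Coprime W := by
        have g1 : (a + i * W * d).Coprime W := by
          rw [Nat.Prime.coprime_iff_not_dvd hp]
          have g2 : HH d < a + i * W * d := by
            have g3 : 1 ≤ i * W := Nat.mul_pos hi.1 hW0
            have g4 : d ≤ i * W * d := Nat.le_mul_of_pos_left d g3
            omega
          have g5 := not_dvd_Wq (X := d) (q := d) hp g2
          rw [← hW] at g5
          exact g5
        have g4 : a + i * W * d = a + (i * d) * W := by ring
        rw [g4, Nat.coprime_add_mul_right_left] at g1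
        exact g1
      rw [mem_biUnion]
      refine ⟨(a + d) % W, ?_, ?_⟩
      · rw [hG, mem_filter, mem_range]
        refine ⟨Nat.mod_lt _ hW0, ?_⟩
        have g5 : (a + d) % W + (W * d - d) ≡ a [MOD W] := by
          have g6 : (a + d) % W + (W * d - d) ≡ (a + d) + (W * d - d) [MOD W] :=
            (Nat.mod_modEq _ _).add_right _
          have g7 : (a + d) + (W * d - d) = a + W * d := by
            have : d ≤ W * d := Nat.le_mul_of_pos_left d hW0
            omega
          rw [g7] at g6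
          exact g6.trans (by rw [Nat.ModEq, Nat.add_mul_mod_self_left])
        rw [Nat.Coprime, g5.gcd_eq]
        exact haW
      · rw [mem_Sc, ← hW]
        refine ⟨⟨by omega, by omega⟩, rfl, ?_⟩
        rwa [Nat.coprime_add_self_left]
    have hEc : E.card ≤ ∑ b ∈ G, (Sc d d b).card := by
      rw [← card_image_of_injective E (fun _ _ h => Nat.add_right_cancel h :
        Function.Injective (fun a => a + d))]
      exact (card_le_card hsub).trans card_biUnion_le
    have hsum : ∑ b ∈ G, ((Sc d d b).card : ℝ) ≤ G.card * (2 * (fr d * (d : ℝ) / W)) := by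
      rw [← nsmul_eq_mul, ← sum_const]
      apply sum_le_sum
      intro b hb
      rw [hG, mem_filter, mem_range] at hb
      rw [hW]
      exact h1 d (by omega) d (by omega) le_rfl b (by rw [← hW]; exact hb.1)
    have hEr : (E.card : ℝ) ≤ ∑ b ∈ G, ((Sc d d b).card : ℝ) := by exact_mod_cast hEc
    have h6 : fr d * d = (Nat.totient d : ℝ) := by
      unfold fr
      field_simp
    have hk := le_kap (d := d) (by linarith) hH1
    rw [← hW] at hk
    have hk2 : kappa d = kap d := rfl
    rw [hk2]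
    refine hEr.trans (hsum.trans ?_)
    rw [hGc, h6]
    have hφ : (0 : ℝ) ≤ Nat.totient d := Nat.cast_nonneg _
    calc (Nat.totient W : ℝ) * (2 * ((Nat.totient d : ℝ) / W)) =
          2 * ((Nat.totient W : ℝ) / W) * Nat.totient d := by ring
      _ ≤ 2 * (8 * kap d) * Nat.totient d := by
          apply mul_le_mul_of_nonneg_right _ hφ
          linarith
      _ = _ := by ring

open Classical in
/-- **Primes at the places of an arbitrary set of multipliers**, for every modulus `d`, and the exact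
order of magnitude of the number of classes -/
theorem result :
    (∀ (m : ℕ) (ρ Λ : ℝ), 0 < ρ → 0 < Λ →
      ∃ c : ℝ, 0 < c ∧ ∀ A : ℕ, ∃ d₀ : ℕ, ∀ d : ℕ, d₀ ≤ d → ∀ J : Finset ℕ,
        (∀ j ∈ J, (j : ℝ) ≤ Real.log d ^ A) → ρ * scale d ≤ J.card →
        c * (kappa d * (Nat.totient d : ℝ)) ≤
          (((range d).filter (fun a => Good m Λ J d a)).card : ℝ)) ∧
    (∃ d₀ : ℕ, ∀ d : ℕ, d₀ ≤ d → ∃ J : Finset ℕ,
      (∀ j ∈ J, (j : ℝ) ≤ Real.log d ^ 2) ∧ Real.log d ^ (3 / 2 : ℝ) ≤ J.card ∧
      (((range d).filter (fun a => a.Coprime d ∧ ∃ j ∈ J, (a + j * d).Prime)).card : ℝ) ≤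
        16 * (kappa d * (Nat.totient d : ℝ))) :=
  ⟨lower, sharp⟩

end Pool.Agent.Results.MP_e1dc24_nt.EverySetOfMultipliers
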