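import Mathlib
import Pool.Agent.H524.AllChar

/-!
The largest least prime in the residue classes modulo the powers of `X`, in the polynomial ring over
a finite field of characteristic `p`.

The norm of a nonzero polynomial `M` over a field with `q` elements is `|M| = q ^ deg M`. Congruence
of `P` and `a` modulo `X ^ m` is written `X ^ m ∣ P - a`, and `a` is prime to `X ^ m` when its
constant coefficient is not zero.
-/

open Polynomial

/-- Let `K` be a finite field with `q` elements, of characteristic `p`. There is a constant `c > 0`
such that for every `m ≥ 2`, with `M = X ^ m`, there is a reduced residue class modulo `M` all of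
whose irreducible elements `P` satisfy
`|P| ≥ c * |M| * (log |M| / log log |M|) ^ (p / (p - 1))`. -/
theorem Pool.Agent.Results.MP_e1dc24_nt.FunctionFieldOddPowers.result
    (p : ℕ) (hp : p.Prime) (K : Type*) [Field K] [Fintype K] [CharP K p] :
    ∃ c : ℝ, 0 < c ∧ ∀ m : ℕ, 2 ≤ m → ∃ a : K[X], a.coeff 0 ≠ 0 ∧
      ∀ P : K[X], Irreducible P → X ^ m ∣ P - a →
        c * ((Fintype.card K : ℝ) ^ m *
          (Real.log ((Fintype.card K : ℝ) ^ m) /
            Real.log (Real.log ((Fintype.card K : ℝ) ^ m))) ^ ((p : ℝ) / ((p : ℝ) - 1))) ≤
        (Fintype.card K : ℝ) ^ P.natDegree :=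
  Pool.Agent.H524.rev_all_char p hp
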