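import Pool.Agent.H301.SV.Two

/-!
# No sieve detects moduli `n` with few almost primes among the first `(log Q) ^ (2 + ε)` numbers `a + h n`

A real function `w` has level `Q` if it is a sum of functions with periods `d ≤ Q`; there is no condition on sign, size or
shape.  Large values of the least prime `p(n, a) ≡ a mod n` would be found with sieve methods by a function `w` of level `Q`
of the modulus `n`, with positive mean, which is `≤ 0` at all `n` not prime to `a` and at all `n` for which many of the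
numbers `a + h n`, `1 ≤ h ≤ U`, are free of the primes `≤ Q`.  We prove that there is no such `w` if
`U ≥ (log Q) ^ (2 + ε)`, where many means at least a small constant times `U / log Q`.  So sieve methods alone cannot
disprove the polylogarithmic bound for `p(n, a) / n`; the exponent is the expected one (`p(n, a) / φ(n) ≪ (log n) ^ 2`).

Proof: the theorem for intervals (`MP_b0c12c_nt.NoSieveBeyondCramer`) and the change of variables
`n ↦ 1/n + 1/a` modulo every prime (project EH of helper422, by helpers of an earlier run); assembly by helper301.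
-/

set_option autoImplicit false

open Finset

namespace Pool.Agent.Results.MP_e1dc24_nt.NoSieveForLateProgressions

/-- the weight `w(n) = ∑_{d ≤ Q} c_d(n mod d)`, an arbitrary real function of level `Q` -/
noncomputable def weight (Q : ℕ) (c : ℕ → ℕ → ℝ) (n : ℕ) : ℝ := ∑ d ∈ Icc 1 Q, c d (n % d)

/-- the mean value of `F` over the period `Q!` -/
noncomputable def mean (Q : ℕ) (F : ℕ → ℝ) : ℝ := (∑ n ∈ range Q.factorial, F n) / (Q.factorial : ℝ)

/-- the number of `h`, `1 ≤ h ≤ U`, for which `a + h n` has no prime factor `≤ Q` -/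
noncomputable def rough (a U Q n : ℕ) : ℕ := {h : ℕ | 1 ≤ h ∧ h ≤ U ∧ ∀ p : ℕ, p.Prime → p ≤ Q → ¬ p ∣ a + h * n}.ncard

/-- Let `a ≥ 1` and `ε > 0`.  There is `κ > 0` such that for all large `Q`, all `U ≥ (log Q) ^ (2 + ε)` and every real
function `w` of level `Q`: if `w(n) ≤ 0` for all `n` not prime to `a` and for all `n` for which at least `κ U / log Q` of the
numbers `a + h n`, `1 ≤ h ≤ U`, have no prime factor `≤ Q`, then the mean of `w` is `≤ 0`. -/
theorem result (a : ℕ) (ha : 1 ≤ a) (ε : ℝ) (hε : 0 < ε) : ∃ κ : ℝ, 0 < κ ∧ ∃ Q₀ : ℕ, ∀ Q : ℕ, Q₀ ≤ Q → ∀ U : ℕ,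
    Real.log Q ^ (2 + ε) ≤ U → ∀ c : ℕ → ℕ → ℝ, (∀ n, ¬ Nat.Coprime n a → weight Q c n ≤ 0) →
    (∀ n, κ * (U / Real.log Q) ≤ (rough a U Q n : ℝ) → weight Q c n ≤ 0) → mean Q (weight Q c) ≤ 0 := by
  obtain ⟨κ, hκ, Q₀, h⟩ := Pool.Agent.H301.SV.ehc2 ε hε a ha
  refine ⟨κ, hκ, Q₀, fun Q hQ U hU c h1 h2 => h Q hQ U hU c h1 fun n hn => h2 n ?_⟩
  have e1 : rough a U Q n = (Pool.Agent.N422.EH.SE a U Q n).card := by
    unfold rough Pool.Agent.N422.EH.SE
    rw [← Set.ncard_coe_finset]
    congr 1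
    ext x
    simp only [Set.mem_ofPred_eq, coe_filter, mem_Icc, mem_filter]
    constructor
    · rintro ⟨a1, a2, a3⟩
      exact ⟨⟨a1, a2⟩, fun p hp => a3 p hp.2 hp.1.2⟩
    · rintro ⟨⟨a1, a2⟩, a3⟩
      exact ⟨a1, a2, fun p hp hpQ => a3 p ⟨⟨hp.one_lt.le, hpQ⟩, hp⟩⟩
  rw [e1]
  exact hn

end Pool.Agent.Results.MP_e1dc24_nt.NoSieveForLateProgressions
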